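import Pool.Agent.Lib.MP_688fd0_co.TF.H92.HubAux

/-!
# Theorem F, module HUB2: (5.9)
-/

namespace Pool.Agent.Lib.MP_688fd0_co.TF

open Pool.Agent.Lib.MP_688fd0_co.TE

namespace H92

universe u

/-- Numerical estimate. -/
theorem hub2_num {X m a b d e S : ℝ} (hX : (10 : ℝ) ^ 6 ≤ X) (hm : 0 < m) (ha : 0 ≤ a)
    (hb : 0 ≤ b) (hd : 0 ≤ d) (he : e ≤ X ^ 22 * d) (hS : S ≤ 2 * m * X ^ 20 * d) :
    4 * m ^ 2 * (2 / m * b) + 8 * m * e + 64 * S ≤ m * X ^ 24 * (a + b + d) := by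
  have hX0 : 0 < X := lt_of_lt_of_le (by norm_num) hX
  have e1 : 4 * m ^ 2 * (2 / m * b) = 8 * m * b := by field_simp; ring
  have e2 : 8 * m * e ≤ 8 * m * (X ^ 22 * d) := mul_le_mul_of_nonneg_left he (by positivity)
  have e3 : 64 * S ≤ 64 * (2 * m * X ^ 20 * d) := mul_le_mul_of_nonneg_left hS (by norm_num)
  have hX2 : (10 : ℝ) ^ 6 * (10 : ℝ) ^ 6 ≤ X * X := mul_le_mul hX hX (by norm_num) hX0.le
  have hX1 : 1 ≤ X := le_trans (by norm_num) hX
  have f1 : 8 ≤ X ^ 24 := by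
    have : X ≤ X ^ 24 := le_self_pow₀ hX1 (by norm_num)
    linarith
  have f2 : 8 * X ^ 22 + 128 * X ^ 20 ≤ X ^ 24 := by
    have h1 : X ^ 20 ≤ X ^ 22 := pow_le_pow_right₀ hX1 (by norm_num)
    have h2 : X ^ 24 = X ^ 22 * (X * X) := by ring
    have h3 : X ^ 22 * 136 ≤ X ^ 22 * (X * X) :=
      mul_le_mul_of_nonneg_left (by linarith) (pow_pos hX0 _).le
    linarith
  have g1 : 8 * m * b ≤ m * X ^ 24 * b := by
    have : m * b * 8 ≤ m * b * X ^ 24 := mul_le_mul_of_nonneg_left f1 (mul_nonneg hm.le hb)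
    linarith
  have g2 : m * d * (8 * X ^ 22 + 128 * X ^ 20) ≤ m * d * X ^ 24 :=
    mul_le_mul_of_nonneg_left f2 (mul_nonneg hm.le hd)
  have g3 : 0 ≤ m * X ^ 24 * a := mul_nonneg (mul_nonneg hm.le (pow_pos hX0 _).le) ha
  rw [e1]
  nlinarith [e2, e3, g1, g2, g3]

theorem hub2 : HUB2F_S.{u} := by
  intro G _ _ _ c N g m _ lv hm he2 u v i ell ell' hE hE'
  have hX := X_big c
  have hX0 : 0 < c.X := lt_of_lt_of_le (by norm_num) hX
  have hm0 : (0 : ℝ) < m := lt_of_lt_of_le (pow_pos hX0 _) hm.1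
  have hmne : (m : ℝ) ≠ 0 := hm0.ne'
  have hsy := UM_symm c.hB
  have hrow := UM_row c.hB
  have hnn := UM_nonneg c.B
  have mono : ∀ (p q : G → Prop), (∀ x, p x → q x) → ∀ z,
      ∑ x, UM c.B z x * ind (p x) ≤ ∑ x, UM c.B z x * ind (q x) := fun p q hpq z =>
    Finset.sum_le_sum fun x _ => mul_le_mul_of_nonneg_left (ind_mono (hpq x)) (hnn z x)
  have hlev : i + 1 + 1 = i + 2 := by ring
  constructor
  · -- rows
    have key := core (UM c.B) hnn hsy hrow (m : ℝ) hm0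
      (fun x => ind (g.RR x ∧ lv x = i)) (fun y => ind (¬ g.W y ∧ lv y = i + 2)) u v
      (g.Uh lv u (i + 1)) (g.Vh lv v (i + 1)) ell' (fun x => ind_nonneg _) (fun x => ind_nonneg _)
      (fun z => (he2 z i).1.trans (mono _ _ (fun x hx => ⟨Or.inl hx.1, hx.2⟩) z))
      (fun z => (he2 z i).2.1) (fun z => (he2 z (i + 2)).1)
      (fun z => (mono _ _ (fun x hx => ⟨Or.inl hx.1, hx.2⟩) z).trans (he2 z (i + 2)).2.2)
      hE'.nn ?_
    · have h1 : ∑ z, |g.Uh lv u i z - g.Uh lv u (i + 1) z| =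
          ∑ z, |(∑ x, UM c.B z x * ind (g.RR x ∧ lv x = i) * u x) /
            (∑ x, UM c.B z x * ind (g.RR x ∧ lv x = i)) - g.Uh lv u (i + 1) z| := rfl
      rw [h1]
      refine key.trans ?_
      have h2 : ∑ x, ∑ y, ind (g.RR x ∧ lv x = i) * ind (¬ g.W y ∧ lv y = i + 2) * UM c.B x y *
          |u x - v y| ≤ 2 / m * g.b2 lv u v i := by
        unfold Gad.b2
        rw [Finset.mul_sum]
        refine Finset.sum_le_sum fun x _ => ?_
        rw [Finset.mul_sum]
        refine Finset.sum_le_sum fun y _ => ?_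
        rw [← mul_assoc]
        refine mul_le_mul_of_nonneg_right ?_ (abs_nonneg _)
        exact UM_le_aB g hm0 lv i (fun x => g.RR x ∧ lv x = i) (fun y => ¬ g.W y ∧ lv y = i + 2)
          (fun x hx => hx) (fun y hy => ⟨Or.inl hy.1, hy.2⟩) (fun x y _ hy hW => hy.1 hW.2) x y
      have h3 : ∑ y, ind (¬ g.W y ∧ lv y = i + 2) * ∑ z, UM c.B y z *
          |v y - g.Vh lv v (i + 1) z| ≤ c.X ^ 22 * g.bc lv u v (i + 1) := by
        refine le_trans (Finset.sum_le_sum fun y _ => ?_) hE'.a2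
        refine mul_le_mul_of_nonneg_right (ind_mono ?_)
          (Finset.sum_nonneg fun z _ => mul_nonneg (hnn y z) (abs_nonneg _))
        exact fun hy => ⟨Or.inl hy.1, by rw [hlev]; exact hy.2⟩
      refine le_trans ?_ (hub2_num hX hm0 (bc_nonneg g lv u v i) (b2_nonneg g lv u v i)
        (bc_nonneg g lv u v (i + 1)) h3 hE'.sum)
      have h4 := mul_le_mul_of_nonneg_left h2 (by positivity : (0 : ℝ) ≤ 4 * (m : ℝ) ^ 2)
      linarith
    · intro z x y z' g1 g2 g3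
      have h := hE'.uv z z' (oddW_three g1 g2 g3)
      rw [abs_sub_comm]
      exact h
  · -- columns
    have key := core (UM c.B) hnn hsy hrow (m : ℝ) hm0
      (fun x => ind (g.CC x ∧ lv x = i + 1 + 1)) (fun y => ind (¬ g.W y ∧ lv y = i)) v u
      (g.Vh lv v i) (g.Uh lv u i) ell (fun x => ind_nonneg _) (fun x => ind_nonneg _)
      (fun z => (he2 z (i + 1 + 1)).1.trans (mono _ _ (fun x hx => ⟨Or.inl hx.1, hx.2⟩) z))
      (fun z => (he2 z (i + 1 + 1)).2.2) (fun z => (he2 z i).1)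
      (fun z => (mono _ _ (fun x hx => ⟨Or.inl hx.1, hx.2⟩) z).trans (he2 z i).2.1)
      hE.nn ?_
    · have h1 : ∑ z, |g.Vh lv v i z - g.Vh lv v (i + 1) z| =
          ∑ z, |(∑ x, UM c.B z x * ind (g.CC x ∧ lv x = i + 1 + 1) * v x) /
            (∑ x, UM c.B z x * ind (g.CC x ∧ lv x = i + 1 + 1)) - g.Vh lv v i z| :=
        Finset.sum_congr rfl fun z _ => abs_sub_comm _ _
      rw [h1]
      refine key.trans ?_
      have h2 : ∑ x, ∑ y, ind (g.CC x ∧ lv x = i + 1 + 1) * ind (¬ g.W y ∧ lv y = i) *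
          UM c.B x y * |v x - u y| ≤ 2 / m * g.b2 lv u v i := by
        unfold Gad.b2
        rw [Finset.sum_comm, Finset.mul_sum]
        refine Finset.sum_le_sum fun x _ => ?_
        rw [Finset.mul_sum]
        refine Finset.sum_le_sum fun y _ => ?_
        rw [← mul_assoc, abs_sub_comm]
        refine mul_le_mul_of_nonneg_right ?_ (abs_nonneg _)
        have h := UM_le_aB g hm0 lv i (fun x => ¬ g.W x ∧ lv x = i)
          (fun y => g.CC y ∧ lv y = i + 1 + 1)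
          (fun x hx => ⟨Or.inl hx.1, hx.2⟩) (fun y hy => ⟨hy.1, by rw [← hlev]; exact hy.2⟩)
          (fun x y hx _ hW => hx.1 hW.1) x y
        rw [hsy y x]
        linarith
      have h3 : ∑ y, ind (¬ g.W y ∧ lv y = i) * ∑ z, UM c.B y z *
          |u y - g.Uh lv u i z| ≤ c.X ^ 22 * g.bc lv u v i := by
        refine le_trans (Finset.sum_le_sum fun y _ => ?_) hE.a1
        refine mul_le_mul_of_nonneg_right (ind_mono ?_)
          (Finset.sum_nonneg fun z _ => mul_nonneg (hnn y z) (abs_nonneg _))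
        exact fun hy => ⟨Or.inl hy.1, hy.2⟩
      have h5 := hub2_num hX hm0 (bc_nonneg g lv u v (i + 1)) (b2_nonneg g lv u v i)
        (bc_nonneg g lv u v i) h3 hE.sum
      have h4 := mul_le_mul_of_nonneg_left h2 (by positivity : (0 : ℝ) ≤ 4 * (m : ℝ) ^ 2)
      have h6 : (m : ℝ) * c.X ^ 24 * (g.bc lv u v (i + 1) + g.b2 lv u v i + g.bc lv u v i) =
          m * c.X ^ 24 * (g.bc lv u v i + g.b2 lv u v i + g.bc lv u v (i + 1)) := by ring
      rw [h6] at h5
      linarith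
    · intro z x y z' g1 g2 g3
      have h4 : oddW c.B 7 (z'⁻¹ * z) :=
        oddW_three (by rw [hsy]; exact g3) (by rw [hsy]; exact g2) (by rw [hsy]; exact g1)
      have h := hE.uv z' z h4
      linarith

end H92

end Pool.Agent.Lib.MP_688fd0_co.TF
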