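import Pool.Agent.Lib.MP_688fd0_co.TF.H92.HubAux

/-!
# Theorem F, module HUB3: (5.8), summed
-/

namespace Pool.Agent.Lib.MP_688fd0_co.TF

open Pool.Agent.Lib.MP_688fd0_co.TE

namespace H92

universe u

theorem hub3 : HUB3F_S.{u} := by
  intro G _ _ _ c N g m _ lv hm hP1 he2 u v s hs
  have hX := X_big c
  have hX0 : 0 < c.X := lt_of_lt_of_le (by norm_num) hX
  have hX1 : 1 ≤ c.X := le_trans (by norm_num) hX
  have hm0 : (0 : ℝ) < m := lt_of_lt_of_le (pow_pos hX0 _) hm.1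
  have hmne : (m : ℝ) ≠ 0 := hm0.ne'
  have hm2 : 2 ≤ m := by
    have h1 : c.X ≤ c.X ^ 1000 := le_self_pow₀ hX1 (by norm_num)
    have h2 : (2 : ℝ) ≤ m := by linarith [hm.1]
    exact_mod_cast h2
  have h01 : (0 : ZMod m) ≠ 1 := by
    have : Fact (1 < m) := ⟨by omega⟩
    exact zero_ne_one
  have hsy := UM_symm c.hB
  have hrow := UM_row c.hB
  have hnn := UM_nonneg c.B
  have hcol : ∀ y, ∑ x, UM c.B x y = 1 := fun y => by
    rw [← hrow y]; exact Finset.sum_congr rfl fun x _ => hsy x y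
  have mono : ∀ (p q : G → Prop), (∀ x, p x → q x) → ∀ z,
      ∑ x, UM c.B z x * ind (p x) ≤ ∑ x, UM c.B z x * ind (q x) := fun p q hpq z =>
    Finset.sum_le_sum fun x _ => mul_le_mul_of_nonneg_left (ind_mono (hpq x)) (hnn z x)
  obtain ⟨LX, LY, hLX, hLY, hSX, hSY, hL⟩ := hP1 u v
  have hbc := bc_nonneg g lv u v 0
  have hR : ∀ z, 1 / (2 * (m : ℝ)) ≤ ∑ x, UM c.B z x * ind (g.RR x ∧ lv x = 0) := fun z =>
    (he2 z 0).1.trans (mono _ _ (fun x hx => ⟨Or.inl hx.1, hx.2⟩) z)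
  have hC : ∀ z, 1 / (2 * (m : ℝ)) ≤ ∑ x, UM c.B z x * ind (g.CC x ∧ lv x = 0 + 1) := fun z =>
    (he2 z (0 + 1)).1.trans (mono _ _ (fun x hx => ⟨Or.inl hx.1, hx.2⟩) z)
  have hpos : (0 : ℝ) < 1 / (2 * (m : ℝ)) := by positivity
  have hle : ∀ (S A : ℝ), 1 / (2 * (m : ℝ)) ≤ S → 0 ≤ A → A / S ≤ 2 * m * A := by
    intro S A hS hA
    have hS0 : 0 < S := lt_of_lt_of_le hpos hS
    rw [div_le_iff₀ hS0]
    have h1 : 1 ≤ 2 * m * S := by
      have := mul_le_mul_of_nonneg_left hS (by positivity : (0 : ℝ) ≤ 2 * m)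
      have e : 2 * (m : ℝ) * (1 / (2 * m)) = 1 := by field_simp
      linarith
    calc A = 1 * A := by ring
      _ ≤ (2 * m * S) * A := mul_le_mul_of_nonneg_right h1 hA
      _ = _ := by ring
  have pt : ∀ z, |g.Uh lv u 0 z - g.Vh lv v 0 (z * s)| ≤
      2 * m * ∑ x, UM c.B z x * LX x + 2 * m * ∑ y, UM c.B (z * s) y * LY y := by
    intro z
    have h1 := avg_dist (fun x => UM c.B z x * ind (g.RR x ∧ lv x = 0))
      (fun y => UM c.B (z * s) y * ind (g.CC y ∧ lv y = 0 + 1)) u v LX LY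
      (fun x => mul_nonneg (hnn z x) (ind_nonneg _))
      (fun y => mul_nonneg (hnn _ y) (ind_nonneg _))
      (lt_of_lt_of_le hpos (hR z)) (lt_of_lt_of_le hpos (hC (z * s))) (by
        intro x y hx hy
        have hx1 : UM c.B z x ≠ 0 := left_ne_zero_of_mul hx
        have hx2 : ind (g.RR x ∧ lv x = 0) ≠ 0 := right_ne_zero_of_mul hx
        have hy1 : UM c.B (z * s) y ≠ 0 := left_ne_zero_of_mul hy
        have hy2 : ind (g.CC y ∧ lv y = 0 + 1) ≠ 0 := right_ne_zero_of_mul hy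
        have hx3 : g.RR x ∧ lv x = 0 := by
          by_contra h
          exact hx2 (ind_not h)
        have hy3 : g.CC y ∧ lv y = 0 + 1 := by
          by_contra h
          exact hy2 (ind_not h)
        have hy4 : lv y = 1 := by rw [hy3.2, zero_add]
        refine hL x y hx3.1 hy3.1 hx3.2 hy4 ?_ ?_
        · rintro rfl
          exact h01 (hx3.2.symm.trans hy4)
        · obtain ⟨j, hj, hj7, hw⟩ := hs
          have hsub : ∀ w, w ∈ c.B → w ∈ Lt c.B c.C true := fun w hw => by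
            unfold Lt
            simp only [if_true]
            exact Finset.mem_union_left _ hw
          have e : x⁻¹ * y = (x⁻¹ * z) * s * ((z * s)⁻¹ * y) := by group
          have w1 : word (Lt c.B c.C true) 1 (x⁻¹ * z) :=
            word_one (hsub _ (UM_mem (by rw [hsy]; exact hx1)))
          have w2 : word (Lt c.B c.C true) 1 ((z * s)⁻¹ * y) := word_one (hsub _ (UM_mem hy1))
          refine ⟨1 + j + 1, ?_, by omega, ?_⟩
          · obtain ⟨r, hr⟩ := hj
            exact ⟨r + 1, by omega⟩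
          · rw [e]
            exact word_append (word_append w1 hw) w2)
    have e0 : g.Uh lv u 0 z - g.Vh lv v 0 (z * s) =
        (∑ x, UM c.B z x * ind (g.RR x ∧ lv x = 0) * u x) /
          (∑ x, UM c.B z x * ind (g.RR x ∧ lv x = 0)) -
        (∑ y, UM c.B (z * s) y * ind (g.CC y ∧ lv y = 0 + 1) * v y) /
          (∑ y, UM c.B (z * s) y * ind (g.CC y ∧ lv y = 0 + 1)) := rfl
    rw [e0]
    refine h1.trans (add_le_add ?_ ?_)
    · refine (hle _ _ (hR z) (Finset.sum_nonneg fun x _ =>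
        mul_nonneg (mul_nonneg (hnn z x) (ind_nonneg _)) (hLX x))).trans ?_
      refine mul_le_mul_of_nonneg_left (Finset.sum_le_sum fun x _ => ?_) (by positivity)
      refine mul_le_mul_of_nonneg_right ?_ (hLX x)
      calc UM c.B z x * ind (g.RR x ∧ lv x = 0) ≤ UM c.B z x * 1 :=
            mul_le_mul_of_nonneg_left (ind_le_one _) (hnn z x)
        _ = _ := mul_one _
    · refine (hle _ _ (hC (z * s)) (Finset.sum_nonneg fun x _ =>
        mul_nonneg (mul_nonneg (hnn _ x) (ind_nonneg _)) (hLY x))).trans ?_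
      refine mul_le_mul_of_nonneg_left (Finset.sum_le_sum fun x _ => ?_) (by positivity)
      refine mul_le_mul_of_nonneg_right ?_ (hLY x)
      calc UM c.B (z * s) x * ind (g.CC x ∧ lv x = 0 + 1) ≤ UM c.B (z * s) x * 1 :=
            mul_le_mul_of_nonneg_left (ind_le_one _) (hnn _ x)
        _ = _ := mul_one _
  have hsum : ∀ F : G → ℝ, ∑ z, ∑ x, UM c.B z x * F x = ∑ x, F x := by
    intro F
    rw [Finset.sum_comm]
    refine Finset.sum_congr rfl fun x _ => ?_
    rw [← Finset.sum_mul, hcol, one_mul]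
  have hsum' : ∀ F : G → ℝ, ∑ z, ∑ x, UM c.B (z * s) x * F x = ∑ x, F x := by
    intro F
    rw [← hsum F]
    exact Fintype.sum_equiv (Equiv.mulRight s) _ _ (fun z => rfl)
  refine (Finset.sum_le_sum fun z _ => pt z).trans ?_
  rw [Finset.sum_add_distrib, ← Finset.mul_sum, ← Finset.mul_sum, hsum, hsum']
  have h1 := mul_le_mul_of_nonneg_left hSX (by positivity : (0 : ℝ) ≤ 2 * m)
  have h2 := mul_le_mul_of_nonneg_left hSY (by positivity : (0 : ℝ) ≤ 2 * m)
  have e : 2 * (m : ℝ) * (c.X ^ 30 * (m * c.X ^ 100) * g.bc lv u v 0) +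
      2 * m * (c.X ^ 30 * (m * c.X ^ 100) * g.bc lv u v 0) =
      4 * (c.X ^ 130 * m ^ 2 * g.bc lv u v 0) := by ring
  have h3 : 0 ≤ c.X ^ 130 * m ^ 2 * g.bc lv u v 0 :=
    mul_nonneg (mul_nonneg (pow_pos hX0 _).le (by positivity)) hbc
  have h4 : c.X ^ 132 * m ^ 2 * g.bc lv u v 0 = c.X * c.X * (c.X ^ 130 * m ^ 2 * g.bc lv u v 0) := by
    ring
  have h5 : (4 : ℝ) ≤ c.X * c.X := by nlinarith [hX]
  have h6 := mul_le_mul_of_nonneg_right h5 h3
  rw [h4]
  linarith

end H92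

end Pool.Agent.Lib.MP_688fd0_co.TF
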