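import Pool.Agent.Lib.MP_688fd0_co.TF.Iface2

/-!
# Theorem F, module MRG: products of window bounds
-/

namespace Pool.Agent.Lib.MP_688fd0_co.TF

open Pool.Agent.Lib.MP_688fd0_co.TE

namespace H92

set_option linter.unusedSectionVars false

universe u

open scoped Classical in
/-- Generic window bound. -/
noncomputable def gg (Q : ℕ → ℝ) (b : ℝ) (τ : Bool) (D : ℕ) (p : ℕ × ℕ) : ℝ :=
  if D + 4 ≤ p.2 then Q ((p.2 - 4) / D) else if spw τ p then 1 else 1 / b

open scoped Classical in
/-- Number of windows with a power of `1/b`. -/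
noncomputable def nsp (τ : Bool) (l : List (ℕ × ℕ)) : ℕ := (l.filter (fun p => ¬ spw τ p)).length

open scoped Classical in
/-- Number of windows without a power of `1/b`. -/
noncomputable def isp (τ : Bool) (l : List (ℕ × ℕ)) : ℕ := (l.filter (fun p => spw τ p)).length

/-- Number of blocks of a window. -/
def idx (D : ℕ) (p : ℕ × ℕ) : ℕ := if D + 4 ≤ p.2 then (p.2 - 4) / D else 0

theorem not_spw_of_long {τ : Bool} {p : ℕ × ℕ} (h : 2 ≤ p.2) : ¬ spw τ p := by
  rintro (h1 | h1)
  · omega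
  · omega

theorem nsp_add_isp (τ : Bool) (l : List (ℕ × ℕ)) : nsp τ l + isp τ l = l.length := by
  classical
  unfold nsp isp
  induction l with
  | nil => simp
  | cons p l ih =>
    by_cases hp : spw τ p
    · simp only [List.filter_cons, hp, decide_true, decide_false, not_true, if_true,
        List.length_cons, Bool.false_eq_true, if_false]
      omega
    · simp only [List.filter_cons, hp, decide_true, decide_false, not_false_iff, if_true,
        List.length_cons, Bool.false_eq_true, if_false]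
      omega

theorem nsp_cons (τ : Bool) (p : ℕ × ℕ) (l : List (ℕ × ℕ)) :
    (spw τ p → nsp τ (p :: l) = nsp τ l) ∧ (¬ spw τ p → nsp τ (p :: l) = nsp τ l + 1) := by
  classical
  unfold nsp
  constructor
  · intro h; simp [h]
  · intro h; simp [h]

variable {Q : ℕ → ℝ} {b : ℝ} {r0 : ℕ}

theorem gg_nonneg (hQ : ∀ j, 0 < Q j) (hb : 1 ≤ b) (τ : Bool) (D : ℕ) (p : ℕ × ℕ) :
    0 ≤ gg Q b τ D p := by
  unfold gg
  split
  · exact (hQ _).le
  · split
    · exact zero_le_one
    · positivity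

/-- Merging a list of windows into a long one. -/
theorem merge_list (hQ : ∀ j, 0 < Q j) {sb : ℝ} (hsb : 1 ≤ sb) (hb : sb * sb = b)
    (hm : ∀ i j, 1 ≤ i → 1 ≤ j → r0 ≤ i + j → Q i * Q j ≤ Q (i + j) / sb) (τ : Bool) (D : ℕ)
    (hD : 1 ≤ D) : ∀ (l : List (ℕ × ℕ)) (m : ℕ), 1 ≤ m → r0 ≤ m →
    Q m * (l.map (gg Q b τ D)).prod ≤ Q (m + (l.map (idx D)).sum) / sb ^ nsp τ l
  | [], m, _, _ => by simp [nsp]
  | p :: l, m, h1, h2 => by
    have hs0 : 0 < sb := by linarith
    have hb1 : 1 ≤ b := by rw [← hb]; nlinarith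
    have hprod : 0 ≤ (l.map (gg Q b τ D)).prod := List.prod_nonneg (by
      intro x hx
      obtain ⟨p, _, rfl⟩ := List.mem_map.1 hx
      exact gg_nonneg hQ hb1 τ D p)
    simp only [List.map_cons, List.prod_cons, List.sum_cons]
    by_cases hl : D + 4 ≤ p.2
    · have hg : gg Q b τ D p = Q ((p.2 - 4) / D) := if_pos hl
      have hi : idx D p = (p.2 - 4) / D := if_pos hl
      have hpos : 1 ≤ (p.2 - 4) / D := by
        rw [Nat.le_div_iff_mul_le (by omega)]
        omega
      have ih := merge_list hQ hsb hb hm τ D hD l (m + (p.2 - 4) / D) (by omega) (by omega)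
      have h3 := hm m ((p.2 - 4) / D) h1 hpos (by omega)
      have hn := (nsp_cons τ p l).2 (not_spw_of_long (by omega))
      rw [hg, hi, hn]
      calc Q m * (Q ((p.2 - 4) / D) * (l.map (gg Q b τ D)).prod)
          = (Q m * Q ((p.2 - 4) / D)) * (l.map (gg Q b τ D)).prod := by ring
        _ ≤ (Q (m + (p.2 - 4) / D) / sb) * (l.map (gg Q b τ D)).prod :=
            mul_le_mul_of_nonneg_right h3 hprod
        _ = (Q (m + (p.2 - 4) / D) * (l.map (gg Q b τ D)).prod) / sb := by ring
        _ ≤ (Q (m + (p.2 - 4) / D + (l.map (idx D)).sum) / sb ^ nsp τ l) / sb :=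
            div_le_div_of_nonneg_right ih hs0.le
        _ = Q (m + ((p.2 - 4) / D + (l.map (idx D)).sum)) / sb ^ (nsp τ l + 1) := by
            rw [div_div, pow_succ, add_assoc]
    · have ih := merge_list hQ hsb hb hm τ D hD l m h1 h2
      have hi : idx D p = 0 := if_neg hl
      rw [hi, zero_add]
      by_cases hsp : spw τ p
      · have hg : gg Q b τ D p = 1 := by unfold gg; rw [if_neg hl, if_pos hsp]
        rw [hg, one_mul, (nsp_cons τ p l).1 hsp]
        exact ih
      · have hg : gg Q b τ D p = 1 / b := by unfold gg; rw [if_neg hl, if_neg hsp]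
        rw [hg, (nsp_cons τ p l).2 hsp]
        have h4 : 1 / b ≤ 1 / sb := by
          refine one_div_le_one_div_of_le hs0 ?_
          rw [← hb]; nlinarith
        calc Q m * (1 / b * (l.map (gg Q b τ D)).prod)
            = (Q m * (l.map (gg Q b τ D)).prod) * (1 / b) := by ring
          _ ≤ (Q m * (l.map (gg Q b τ D)).prod) * (1 / sb) :=
              mul_le_mul_of_nonneg_left h4 (mul_nonneg (hQ m).le hprod)
          _ ≤ (Q (m + (l.map (idx D)).sum) / sb ^ nsp τ l) * (1 / sb) :=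
              mul_le_mul_of_nonneg_right ih (by positivity)
          _ = _ := by rw [pow_succ]; field_simp

/-- Trivial bound. -/
theorem triv_list (hb1 : 1 ≤ b) (hQ : ∀ j, 0 < Q j) (hQ1 : ∀ j, 1 ≤ j → Q j ≤ 1 / b) (τ : Bool)
    (D : ℕ) (hD : 1 ≤ D) : ∀ l : List (ℕ × ℕ),
    (l.map (gg Q b τ D)).prod ≤ (1 / b) ^ nsp τ l
  | [] => by simp [nsp]
  | p :: l => by
    have ih := triv_list hb1 hQ hQ1 τ D hD l
    have hprod : 0 ≤ (l.map (gg Q b τ D)).prod := List.prod_nonneg (by
      intro x hx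
      obtain ⟨p, _, rfl⟩ := List.mem_map.1 hx
      exact gg_nonneg hQ hb1 τ D p)
    simp only [List.map_cons, List.prod_cons]
    by_cases hsp : spw τ p
    · rw [(nsp_cons τ p l).1 hsp]
      have hl : ¬ D + 4 ≤ p.2 := fun h => not_spw_of_long (by omega) hsp
      have hg : gg Q b τ D p = 1 := by unfold gg; rw [if_neg hl, if_pos hsp]
      rw [hg, one_mul]
      exact ih
    · rw [(nsp_cons τ p l).2 hsp, pow_succ, mul_comm ((1 / b) ^ nsp τ l)]
      have hg : gg Q b τ D p ≤ 1 / b := by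
        unfold gg
        split
        · rename_i hl
          exact hQ1 _ (by rw [Nat.le_div_iff_mul_le (by omega)]; omega)
        · exact le_rfl
      exact mul_le_mul hg ih hprod (by positivity)

theorem idx_sum (D : ℕ) (hD : 1 ≤ D) : ∀ l : List (ℕ × ℕ),
    (l.map Prod.snd).sum ≤ D * (l.map (idx D)).sum + (D + 3) * l.length
  | [] => by simp
  | p :: l => by
    have ih := idx_sum D hD l
    simp only [List.map_cons, List.sum_cons, List.length_cons]
    have h1 : p.2 ≤ D * idx D p + (D + 3) := by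
      unfold idx
      split
      · have h2 := Nat.div_add_mod (p.2 - 4) D
        have h3 := Nat.mod_lt (p.2 - 4) (by omega : D > 0)
        omega
      · omega
    have e1 : D * (idx D p + (l.map (idx D)).sum) + (D + 3) * (l.length + 1) =
        (D * idx D p + (D + 3)) + (D * (l.map (idx D)).sum + (D + 3) * l.length) := by ring
    rw [e1]
    exact add_le_add h1 ih

theorem exists_long (N : ℕ) : ∀ l : List (ℕ × ℕ), (N * l.length < (l.map Prod.snd).sum) →
    ∃ p ∈ l, N < p.2
  | [], h => by simp at h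
  | p :: l, h => by
    by_cases hp : N < p.2
    · exact ⟨p, List.mem_cons_self, hp⟩
    · obtain ⟨p', h1, h2⟩ := exists_long N l (by
        simp only [List.map_cons, List.sum_cons, List.length_cons] at h
        have : N * (l.length + 1) = N * l.length + N := by ring
        omega)
      exact ⟨p', List.mem_cons_of_mem _ h1, h2⟩

/-- The generic merging statement. -/
theorem mrg_gen {n q : ℝ} {k : ℕ} (hQ : ∀ j, 0 < Q j) {sb : ℝ} (hsb : 1 ≤ sb) (hb : sb * sb = b)
    (hm : ∀ i j, 1 ≤ i → 1 ≤ j → r0 ≤ i + j → Q i * Q j ≤ Q (i + j) / sb)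
    (hanti : ∀ i j, i ≤ j → Q j ≤ Q i) (hQ1 : ∀ j, 1 ≤ j → Q j ≤ 1 / b)
    (hq : q = Q k) (hn : 0 < n) (hqn : 1 / n ≤ q) (hu : ∀ u, u ≤ 20 * (r0 + 1) → Q (k - u) ≤ 2 * q)
    (hnb : n ^ 8 ≤ b ^ r0) (hk : 100 * (r0 + 1) ^ 2 ≤ k)
    (τ : Bool) (D c1 c0 : ℕ) (hD : 1 ≤ D)
    (hc : ∀ r, r ≤ r0 → c1 * r + c0 + (D + 3) * (r + 1) ≤ D * (20 * (r0 + 1)))
    (ws : List (ℕ × ℕ)) (r s : ℕ) (hlen : ws.length = r + 1)
    (hs : isp τ ws ≤ s) (hs2 : 2 * s ≤ r + 2) (hr : 1 ≤ r)
    (hsum : D * k ≤ (ws.map Prod.snd).sum + c1 * r + c0) :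
    (ws.map (gg Q b τ D)).prod ≤ 2 * q / sb ^ (r - s) := by
  have hs0 : 0 < sb := by linarith
  have hb1 : 1 ≤ b := by rw [← hb]; nlinarith
  have hq0 : 0 < q := by rw [hq]; exact hQ k
  have hcount := nsp_add_isp τ ws
  by_cases hrr : r ≤ r0
  · -- few windows
    obtain ⟨p, hp, hpl⟩ := exists_long (D * r0 + D + 3) ws (by
      rw [hlen]
      have h1 := hc r hrr
      have h2 : (D * r0 + D + 3) * (r + 1) ≤ (D * r0 + D + 3) * (r0 + 1) :=
        Nat.mul_le_mul_left _ (by omega)
      have h3 : D * (100 * (r0 + 1) ^ 2) ≤ D * k := Nat.mul_le_mul_left _ hk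
      have h4 : (D * r0 + D + 3) * (r0 + 1) + D * (20 * (r0 + 1)) < D * (100 * (r0 + 1) ^ 2) := by
        nlinarith [Nat.zero_le r0, Nat.mul_le_mul hD hD, Nat.zero_le (D * r0)]
      omega)
    obtain ⟨l1, l2, rfl⟩ := List.append_of_mem hp
    have hperm : (l1 ++ p :: l2).Perm (p :: (l1 ++ l2)) := List.perm_middle
    have hprod : ((l1 ++ p :: l2).map (gg Q b τ D)).prod =
        gg Q b τ D p * ((l1 ++ l2).map (gg Q b τ D)).prod := by
      rw [(hperm.map _).prod_eq]; simp
    have hL : D + 4 ≤ p.2 := by omega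
    have hg : gg Q b τ D p = Q ((p.2 - 4) / D) := if_pos hL
    have hi : idx D p = (p.2 - 4) / D := if_pos hL
    have hm1 : r0 + 1 ≤ (p.2 - 4) / D := by
      rw [Nat.le_div_iff_mul_le (by omega)]
      have : (r0 + 1) * D = D * r0 + D := by ring
      omega
    have h5 := merge_list hQ hsb hb hm τ D hD (l1 ++ l2) ((p.2 - 4) / D) (by omega) (by omega)
    have hnsp : nsp τ (l1 ++ p :: l2) = nsp τ (l1 ++ l2) + 1 := by
      have h6 := (nsp_cons τ p (l1 ++ l2)).2 (not_spw_of_long (by omega))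
      rw [← h6]
      unfold nsp
      exact (hperm.filter _).length_eq
    have hsumi : ((l1 ++ p :: l2).map (idx D)).sum = (p.2 - 4) / D + ((l1 ++ l2).map (idx D)).sum := by
      rw [(hperm.map _).sum_eq]
      simp [hi]
    have h7 := idx_sum D hD (l1 ++ p :: l2)
    rw [hlen, hsumi] at h7
    set M := (p.2 - 4) / D + ((l1 ++ l2).map (idx D)).sum with hM
    have h8 : Q M ≤ 2 * q := by
      by_cases hMk : k ≤ M
      · have := hanti k M hMk
        rw [hq]; linarith [hQ k]
      · have h9 := hu (k - M) (by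
          have h10 := hc r hrr
          have h11 : D * k ≤ D * M + D * (20 * (r0 + 1)) := by omega
          have h12 : D * k ≤ D * (M + 20 * (r0 + 1)) := by rw [mul_add]; exact h11
          have h13 := Nat.le_of_mul_le_mul_left h12 (by omega)
          omega)
        have e : k - (k - M) = M := by omega
        rw [e] at h9
        exact h9
    rw [hprod, hg]
    have hrs : r - s ≤ nsp τ (l1 ++ l2) := by omega
    calc Q ((p.2 - 4) / D) * ((l1 ++ l2).map (gg Q b τ D)).prod
        ≤ Q M / sb ^ nsp τ (l1 ++ l2) := h5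
      _ ≤ 2 * q / sb ^ nsp τ (l1 ++ l2) := div_le_div_of_nonneg_right h8 (by positivity)
      _ ≤ 2 * q / sb ^ (r - s) :=
          div_le_div_of_nonneg_left (by positivity) (by positivity) (pow_le_pow_right₀ hsb hrs)
  · -- many windows
    have h1 := triv_list hb1 hQ hQ1 τ D hD ws
    have h2 : (1 / b) ^ nsp τ ws ≤ (1 / b) ^ (r + 1 - s) :=
      pow_le_pow_of_le_one (by positivity) (by rw [div_le_one (by linarith)]; exact hb1) (by omega)
    refine (h1.trans h2).trans ?_
    have hsr : s ≤ r := by omega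
    rw [le_div_iff₀ (by positivity)]
    -- n ≤ sb ^ (r - s + 2)
    have h3 : b = sb ^ 2 := by rw [← hb]; ring
    have h4 : n ≤ sb ^ (r - s + 2) := by
      have h5 : n ^ 8 ≤ (sb ^ (r - s + 2)) ^ 8 := by
        refine hnb.trans ?_
        rw [h3, ← pow_mul, ← pow_mul]
        exact pow_le_pow_right₀ hsb (by omega)
      exact le_of_pow_le_pow_left₀ (by norm_num) (by positivity) h5
    have h6 : (1 / b) ^ (r + 1 - s) * sb ^ (r - s) = 1 / sb ^ (r - s + 2) := by
      have e1 : r + 1 - s = (r - s) + 1 := by omega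
      rw [e1, h3, one_div, inv_pow, ← pow_mul, one_div]
      have hne : sb ≠ 0 := hs0.ne'
      have e2 : sb ^ (2 * (r - s + 1)) = sb ^ (r - s + 2) * sb ^ (r - s) := by
        rw [← pow_add]; congr 1; ring
      rw [e2, mul_inv, mul_assoc, inv_mul_cancel₀ (pow_ne_zero _ hne), mul_one]
    rw [h6]
    have h7 : 1 / sb ^ (r - s + 2) ≤ 1 / n := one_div_le_one_div_of_le hn h4
    linarith

theorem mrg (hQQ : QQF_S.{u}) : MRG_S.{u} := by
  intro G _ _ _ c τ ws r s hlen hr hs hs2
  obtain ⟨-, hpos, hlo, hanti, hq1, -, -, hmul, hu, -, -, -⟩ := hQQ G c τ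
  have hn : (0 : ℝ) < Fintype.card G := by exact_mod_cast Fintype.card_pos
  have hX1 : (1 : ℝ) ≤ c.X := by
    have h0 : 1 ≤ 10 ^ 6 * c.T * c.k * (c.r0 + 1) := by
      have := c.hT1
      have := c.hodd.pos
      exact Nat.one_le_iff_ne_zero.2 (by positivity)
    have h1 : (1 : ℝ) ≤ ((10 ^ 6 * c.T * c.k * (c.r0 + 1) : ℕ) : ℝ) := by exact_mod_cast h0
    exact (one_le_pow₀ h1).trans c.hX
  have hb1 : (1 : ℝ) ≤ c.b := by
    unfold Ctx.b
    exact (one_le_pow₀ hX1).trans c.hBX
  have hb0 : (0 : ℝ) < c.b := by linarith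
  set sb : ℝ := c.b ^ (1 / 2 : ℝ) with hsb
  have hsb1 : 1 ≤ sb := Real.one_le_rpow hb1 (by norm_num)
  have hsbb : sb * sb = c.b := by
    rw [hsb, ← Real.rpow_add hb0]; norm_num
  have hk : 100 * (c.r0 + 1) ^ 2 ≤ c.k := by
    have h1 := c.hkr
    have hlog : 0 ≤ Real.log (Fintype.card G) :=
      Real.log_nonneg (by exact_mod_cast Fintype.card_pos)
    have h2 : (100 * ((c.r0 : ℝ) + 1) ^ 2) * 1 ≤
        100 * ((c.r0 : ℝ) + 1) ^ 2 * (Real.log (Fintype.card G) + 1) :=
      mul_le_mul_of_nonneg_left (by linarith) (by positivity)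
    have h3 : (100 * ((c.r0 : ℝ) + 1) ^ 2) ≤ c.k := by linarith
    exact_mod_cast h3
  have hisp : isp τ ws ≤ s := by
    classical
    unfold isp
    refine hs _ List.filter_sublist ?_
    intro p hp
    have := (List.mem_filter.1 hp).2
    simpa using this
  have hsr : s ≤ r := by omega
  have hpow : c.b ^ (((r : ℝ) - s) / 2) = sb ^ (r - s) := by
    rw [hsb, ← Real.rpow_natCast, ← Real.rpow_mul hb0.le, Nat.cast_sub hsr]
    congr 1
    ring
  have huk : ∀ u, u ≤ 20 * (c.r0 + 1) → c.qq τ (c.k - u) ≤ 2 * c.q τ := fun u hu' =>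
    hu c.k u le_rfl (by omega) hu'
  rw [hpow]
  constructor
  · intro hsum
    have h1 := mrg_gen (n := (Fintype.card G : ℝ)) (q := c.q τ) (k := c.k) hpos hsb1 hsbb hmul
      hanti hq1 rfl hn (hlo c.k) huk c.hr0 hk τ 6 8 40 (by norm_num) (by
        intro r' hr'
        have := c.hr1
        omega) ws r s hlen hisp hs2 hr hsum
    refine le_trans (le_of_eq ?_) h1
    congr 1
    refine List.map_congr_left fun p _ => ?_
    unfold Ctx.gs gg spw
    norm_num
  · intro hsum
    have h1 := mrg_gen (n := (Fintype.card G : ℝ)) (q := c.q τ) (k := c.k) hpos hsb1 hsbb hmul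
      hanti hq1 rfl hn (hlo c.k) huk c.hr0 hk τ 3 4 20 (by norm_num) (by
        intro r' hr'
        have := c.hr1
        omega) ws r s hlen hisp hs2 hr hsum
    refine le_trans (le_of_eq ?_) h1
    congr 1
    refine List.map_congr_left fun p _ => ?_
    unfold Ctx.g2 gg spw
    norm_num

end H92

end Pool.Agent.Lib.MP_688fd0_co.TF
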