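import Pool.Agent.Lib.MP_688fd0_co.TF.Compat

/-!
# Theorem F, modules HUB2 and HUB3, auxiliary lemmas
-/

namespace Pool.Agent.Lib.MP_688fd0_co.TF

open Pool.Agent.Lib.MP_688fd0_co.TE

namespace H92

set_option linter.unusedSectionVars false

universe u

section gen

variable {G : Type u} [Fintype G]

/-- Distance of two averages. -/
theorem avg_dist (a b u v LX LY : G → ℝ) (ha : ∀ x, 0 ≤ a x) (hb : ∀ y, 0 ≤ b y)
    (hSa : 0 < ∑ x, a x) (hSb : 0 < ∑ y, b y)
    (h : ∀ x y, a x ≠ 0 → b y ≠ 0 → |u x - v y| ≤ LX x + LY y) :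
    |(∑ x, a x * u x) / (∑ x, a x) - (∑ y, b y * v y) / (∑ y, b y)| ≤
      (∑ x, a x * LX x) / (∑ x, a x) + (∑ y, b y * LY y) / (∑ y, b y) := by
  have key : ∀ f g : G → ℝ, ∑ x, ∑ y, a x * b y * (f x + g y) =
      (∑ x, a x * f x) * (∑ y, b y) + (∑ x, a x) * (∑ y, b y * g y) := by
    intro f g
    rw [Finset.sum_mul_sum, Finset.sum_mul_sum, ← Finset.sum_add_distrib]
    refine Finset.sum_congr rfl fun x _ => ?_
    rw [← Finset.sum_add_distrib]
    refine Finset.sum_congr rfl fun y _ => ?_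
    ring
  have hne : (∑ x, a x) ≠ 0 := hSa.ne'
  have hne' : (∑ y, b y) ≠ 0 := hSb.ne'
  have e1 : (∑ x, a x * u x) / (∑ x, a x) - (∑ y, b y * v y) / (∑ y, b y) =
      (∑ x, ∑ y, a x * b y * (u x - v y)) / ((∑ x, a x) * (∑ y, b y)) := by
    have e := key u (fun y => - v y)
    have e' : ∑ x, ∑ y, a x * b y * (u x - v y) = ∑ x, ∑ y, a x * b y * (u x + - v y) := by
      simp only [sub_eq_add_neg]
    rw [e', e]
    have e2 : ∑ y, b y * - v y = - ∑ y, b y * v y := by
      rw [← Finset.sum_neg_distrib]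
      exact Finset.sum_congr rfl fun y _ => by ring
    rw [e2]
    field_simp
    ring
  have e2 : (∑ x, a x * LX x) / (∑ x, a x) + (∑ y, b y * LY y) / (∑ y, b y) =
      (∑ x, ∑ y, a x * b y * (LX x + LY y)) / ((∑ x, a x) * (∑ y, b y)) := by
    rw [key LX LY]
    field_simp
  rw [e1, e2, abs_div, abs_of_pos (mul_pos hSa hSb)]
  refine div_le_div_of_nonneg_right ?_ (mul_pos hSa hSb).le
  refine (Finset.abs_sum_le_sum_abs _ _).trans (Finset.sum_le_sum fun x _ => ?_)
  refine (Finset.abs_sum_le_sum_abs _ _).trans (Finset.sum_le_sum fun y _ => ?_)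
  rw [abs_mul, abs_of_nonneg (mul_nonneg (ha x) (hb y))]
  by_cases hx : a x = 0
  · simp [hx]
  by_cases hy : b y = 0
  · simp [hy]
  exact mul_le_mul_of_nonneg_left (h x y hx hy) (mul_nonneg (ha x) (hb y))

/-- Distance of an average to a number. -/
theorem avg_dist1 (a u : G → ℝ) (r : ℝ) (ha : ∀ x, 0 ≤ a x) (hSa : 0 < ∑ x, a x) :
    |(∑ x, a x * u x) / (∑ x, a x) - r| ≤ (∑ x, a x * |u x - r|) / (∑ x, a x) := by
  have hne : (∑ x, a x) ≠ 0 := hSa.ne'
  have e1 : (∑ x, a x * u x) / (∑ x, a x) - r = (∑ x, a x * (u x - r)) / (∑ x, a x) := by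
    have : ∑ x, a x * (u x - r) = ∑ x, a x * u x - (∑ x, a x) * r := by
      rw [Finset.sum_mul, ← Finset.sum_sub_distrib]
      exact Finset.sum_congr rfl fun x _ => by ring
    rw [this]
    field_simp
  rw [e1, abs_div, abs_of_pos hSa]
  refine div_le_div_of_nonneg_right ?_ hSa.le
  refine (Finset.abs_sum_le_sum_abs _ _).trans (Finset.sum_le_sum fun x _ => ?_)
  rw [abs_mul, abs_of_nonneg (ha x)]

/-- The three step comparison. -/
theorem core (β : G → G → ℝ) (hβ : ∀ x y, 0 ≤ β x y) (hs : ∀ x y, β x y = β y x)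
    (hr : ∀ x, ∑ y, β x y = 1) (M : ℝ) (hM : 0 < M) (P Q f h F H ell : G → ℝ)
    (hP : ∀ x, 0 ≤ P x) (hQ : ∀ x, 0 ≤ Q x)
    (hP1 : ∀ z, 1 / (2 * M) ≤ ∑ x, β z x * P x) (hP2 : ∀ z, ∑ x, β z x * P x ≤ 2 / M)
    (hQ1 : ∀ z, 1 / (2 * M) ≤ ∑ x, β z x * Q x) (hQ2 : ∀ z, ∑ x, β z x * Q x ≤ 2 / M)
    (hell : ∀ z, 0 ≤ ell z)
    (hF : ∀ z x y z', β z x ≠ 0 → β x y ≠ 0 → β y z' ≠ 0 →
      |H z' - F z| ≤ 2 * ell z + 2 * ell z') :
    ∑ z, |(∑ x, β z x * P x * f x) / (∑ x, β z x * P x) - F z| ≤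
      4 * M ^ 2 * (∑ x, ∑ y, P x * Q y * β x y * |f x - h y|) +
      8 * M * (∑ y, Q y * ∑ z, β y z * |h y - H z|) + 64 * ∑ z, ell z := by
  have hc : ∀ y, ∑ x, β x y = 1 := fun y => by
    rw [← hr y]; exact Finset.sum_congr rfl fun x _ => hs x y
  -- pointwise bound
  have pt : ∀ z, |(∑ x, β z x * P x * f x) / (∑ x, β z x * P x) - F z| ≤
      4 * M ^ 2 * ∑ x, ∑ y, ∑ z', β z x * P x * (β x y * Q y) * β y z' *
        (|f x - h y| + |h y - H z'| + (2 * ell z + 2 * ell z')) := by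
    intro z
    have hS : 0 < ∑ x, β z x * P x := lt_of_lt_of_le (by positivity) (hP1 z)
    have h1 := avg_dist1 (fun x => β z x * P x) f (F z)
      (fun x => mul_nonneg (hβ z x) (hP x)) hS
    have h2 : (∑ x, β z x * P x * |f x - F z|) / (∑ x, β z x * P x) ≤
        2 * M * ∑ x, β z x * P x * |f x - F z| := by
      rw [div_le_iff₀ hS]
      have h3 : 0 ≤ ∑ x, β z x * P x * |f x - F z| :=
        Finset.sum_nonneg fun x _ => mul_nonneg (mul_nonneg (hβ z x) (hP x)) (abs_nonneg _)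
      have h4 : 1 ≤ 2 * M * ∑ x, β z x * P x := by
        have := mul_le_mul_of_nonneg_left (hP1 z) (by positivity : (0 : ℝ) ≤ 2 * M)
        have e : 2 * M * (1 / (2 * M)) = 1 := by field_simp
        linarith
      calc ∑ x, β z x * P x * |f x - F z| = 1 * ∑ x, β z x * P x * |f x - F z| := by ring
        _ ≤ (2 * M * ∑ x, β z x * P x) * ∑ x, β z x * P x * |f x - F z| :=
            mul_le_mul_of_nonneg_right h4 h3
        _ = _ := by ring
    refine (h1.trans h2).trans ?_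
    have h5 : 4 * M ^ 2 * ∑ x, ∑ y, ∑ z', β z x * P x * (β x y * Q y) * β y z' *
        (|f x - h y| + |h y - H z'| + (2 * ell z + 2 * ell z')) =
        2 * M * ∑ x, 2 * M * ∑ y, ∑ z', β z x * P x * (β x y * Q y) * β y z' *
        (|f x - h y| + |h y - H z'| + (2 * ell z + 2 * ell z')) := by
      rw [← Finset.mul_sum]; ring
    rw [h5]
    refine mul_le_mul_of_nonneg_left (Finset.sum_le_sum fun x _ => ?_) (by positivity)
    -- fixed x
    have hzx : 0 ≤ β z x * P x := mul_nonneg (hβ z x) (hP x)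
    have h6 : |f x - F z| ≤ 2 * M * ∑ y, β x y * Q y * |f x - F z| := by
      rw [← Finset.sum_mul]
      have := mul_le_mul_of_nonneg_left (hQ1 x) (by positivity : (0 : ℝ) ≤ 2 * M)
      have e : 2 * M * (1 / (2 * M)) = 1 := by field_simp
      have h7 : 1 ≤ 2 * M * ∑ y, β x y * Q y := by linarith
      calc |f x - F z| = 1 * |f x - F z| := by ring
        _ ≤ (2 * M * ∑ y, β x y * Q y) * |f x - F z| :=
          mul_le_mul_of_nonneg_right h7 (abs_nonneg _)
        _ = _ := by ring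
    have h8 : β z x * P x * |f x - F z| ≤
        β z x * P x * (2 * M * ∑ y, β x y * Q y * |f x - F z|) :=
      mul_le_mul_of_nonneg_left h6 hzx
    refine h8.trans ?_
    have h9 : β z x * P x * (2 * M * ∑ y, β x y * Q y * |f x - F z|) =
        2 * M * ∑ y, β z x * P x * (β x y * Q y) * |f x - F z| := by
      rw [Finset.mul_sum, Finset.mul_sum, Finset.mul_sum]
      exact Finset.sum_congr rfl fun y _ => by ring
    rw [h9]
    refine mul_le_mul_of_nonneg_left (Finset.sum_le_sum fun y _ => ?_) (by positivity)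
    have hxy : 0 ≤ β z x * P x * (β x y * Q y) := mul_nonneg hzx (mul_nonneg (hβ x y) (hQ y))
    have h10 : β z x * P x * (β x y * Q y) * |f x - F z| =
        ∑ z', β z x * P x * (β x y * Q y) * β y z' * |f x - F z| := by
      rw [← Finset.sum_mul, ← Finset.mul_sum, hr y, mul_one]
    rw [h10]
    refine Finset.sum_le_sum fun z' _ => ?_
    by_cases g1 : β z x = 0
    · simp [g1]
    by_cases g2 : β x y = 0
    · simp [g2]
    by_cases g3 : β y z' = 0
    · simp [g3]
    refine mul_le_mul_of_nonneg_left ?_ (mul_nonneg hxy (hβ y z'))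
    have h11 := hF z x y z' g1 g2 g3
    have h12 : |f x - F z| ≤ |f x - h y| + |h y - H z'| + |H z' - F z| := by
      have e : f x - F z = (f x - h y) + (h y - H z') + (H z' - F z) := by ring
      rw [e]
      exact (abs_add_le _ _).trans (add_le_add (abs_add_le _ _) le_rfl)
    linarith
  refine (Finset.sum_le_sum fun z _ => pt z).trans ?_
  rw [← Finset.mul_sum]
  -- split the sum in four parts
  have split : ∑ z, ∑ x, ∑ y, ∑ z', β z x * P x * (β x y * Q y) * β y z' *
        (|f x - h y| + |h y - H z'| + (2 * ell z + 2 * ell z')) =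
      (∑ z, ∑ x, ∑ y, ∑ z', β z x * P x * (β x y * Q y) * β y z' * |f x - h y|) +
      (∑ z, ∑ x, ∑ y, ∑ z', β z x * P x * (β x y * Q y) * β y z' * |h y - H z'|) +
      (∑ z, ∑ x, ∑ y, ∑ z', β z x * P x * (β x y * Q y) * β y z' * (2 * ell z)) +
      (∑ z, ∑ x, ∑ y, ∑ z', β z x * P x * (β x y * Q y) * β y z' * (2 * ell z')) := by
    simp only [← Finset.sum_add_distrib]
    refine Finset.sum_congr rfl fun z _ => Finset.sum_congr rfl fun x _ =>
      Finset.sum_congr rfl fun y _ => Finset.sum_congr rfl fun z' _ => ?_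
    ring
  rw [split]
  -- first part
  have p1 : (∑ z, ∑ x, ∑ y, ∑ z', β z x * P x * (β x y * Q y) * β y z' * |f x - h y|) =
      ∑ x, ∑ y, P x * Q y * β x y * |f x - h y| := by
    rw [Finset.sum_comm]
    refine Finset.sum_congr rfl fun x _ => ?_
    rw [Finset.sum_comm]
    refine Finset.sum_congr rfl fun y _ => ?_
    have : ∀ z, ∑ z', β z x * P x * (β x y * Q y) * β y z' * |f x - h y| =
        β z x * (P x * Q y * β x y * |f x - h y|) := by
      intro z
      have e : ∀ z', β z x * P x * (β x y * Q y) * β y z' * |f x - h y| =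
          β z x * (P x * Q y * β x y * |f x - h y|) * β y z' := fun z' => by ring
      rw [Finset.sum_congr rfl fun z' _ => e z', ← Finset.mul_sum, hr y, mul_one]
    rw [Finset.sum_congr rfl fun z _ => this z, ← Finset.sum_mul, hc x, one_mul]
  -- second part
  have p2 : (∑ z, ∑ x, ∑ y, ∑ z', β z x * P x * (β x y * Q y) * β y z' * |h y - H z'|) ≤
      2 / M * ∑ y, Q y * ∑ z, β y z * |h y - H z| := by
    have e1 : (∑ z, ∑ x, ∑ y, ∑ z', β z x * P x * (β x y * Q y) * β y z' * |h y - H z'|) =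
        ∑ y, (∑ x, β y x * P x) * (Q y * ∑ z, β y z * |h y - H z|) := by
      have e2 : ∀ z x y, ∑ z', β z x * P x * (β x y * Q y) * β y z' * |h y - H z'| =
          β z x * (β y x * P x * (Q y * ∑ z', β y z' * |h y - H z'|)) := by
        intro z x y
        rw [hs y x, Finset.mul_sum, Finset.mul_sum, Finset.mul_sum]
        exact Finset.sum_congr rfl fun z' _ => by ring
      rw [Finset.sum_congr rfl fun z _ => Finset.sum_congr rfl fun x _ =>
        Finset.sum_congr rfl fun y _ => e2 z x y]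
      rw [Finset.sum_comm]
      have e3 : ∀ x, ∑ z, ∑ y, β z x * (β y x * P x * (Q y * ∑ z', β y z' * |h y - H z'|)) =
          ∑ y, β y x * P x * (Q y * ∑ z', β y z' * |h y - H z'|) := by
        intro x
        rw [Finset.sum_comm]
        refine Finset.sum_congr rfl fun y _ => ?_
        rw [← Finset.sum_mul, hc x, one_mul]
      rw [Finset.sum_congr rfl fun x _ => e3 x, Finset.sum_comm]
      refine Finset.sum_congr rfl fun y _ => ?_
      rw [Finset.sum_mul]
    rw [e1, Finset.mul_sum]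
    refine Finset.sum_le_sum fun y _ => mul_le_mul_of_nonneg_right (hP2 y) ?_
    exact mul_nonneg (hQ y) (Finset.sum_nonneg fun z _ => mul_nonneg (hβ y z) (abs_nonneg _))
  -- third part
  have hM2 : 0 ≤ 2 / M := by positivity
  have p3 : (∑ z, ∑ x, ∑ y, ∑ z', β z x * P x * (β x y * Q y) * β y z' * (2 * ell z)) ≤
      2 / M * (2 / M) * (2 * ∑ z, ell z) := by
    have e1 : ∀ z, (∑ x, ∑ y, ∑ z', β z x * P x * (β x y * Q y) * β y z' * (2 * ell z)) =
        (∑ x, β z x * P x * (∑ y, β x y * Q y)) * (2 * ell z) := by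
      intro z
      rw [Finset.sum_mul]
      refine Finset.sum_congr rfl fun x _ => ?_
      rw [Finset.mul_sum, Finset.sum_mul]
      refine Finset.sum_congr rfl fun y _ => ?_
      have e : ∀ z', β z x * P x * (β x y * Q y) * β y z' * (2 * ell z) =
          β z x * P x * (β x y * Q y) * (2 * ell z) * β y z' := fun z' => by ring
      rw [Finset.sum_congr rfl fun z' _ => e z', ← Finset.mul_sum, hr y, mul_one]
    rw [Finset.sum_congr rfl fun z _ => e1 z, Finset.mul_sum, Finset.mul_sum]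
    refine Finset.sum_le_sum fun z _ => mul_le_mul_of_nonneg_right ?_
      (mul_nonneg (by norm_num) (hell z))
    calc ∑ x, β z x * P x * (∑ y, β x y * Q y) ≤ ∑ x, β z x * P x * (2 / M) :=
          Finset.sum_le_sum fun x _ => mul_le_mul_of_nonneg_left (hQ2 x)
            (mul_nonneg (hβ z x) (hP x))
      _ = (∑ x, β z x * P x) * (2 / M) := by rw [Finset.sum_mul]
      _ ≤ 2 / M * (2 / M) := mul_le_mul_of_nonneg_right (hP2 z) hM2
  -- fourth part
  have p4 : (∑ z, ∑ x, ∑ y, ∑ z', β z x * P x * (β x y * Q y) * β y z' * (2 * ell z')) ≤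
      2 / M * (2 / M) * (2 * ∑ z, ell z) := by
    have e0 : (∑ z, ∑ x, ∑ y, ∑ z', β z x * P x * (β x y * Q y) * β y z' * (2 * ell z')) =
        ∑ z', (∑ y, β z' y * Q y * (∑ x, β y x * P x)) * (2 * ell z') := by
      have e2 : (∑ z, ∑ x, ∑ y, ∑ z', β z x * P x * (β x y * Q y) * β y z' * (2 * ell z')) =
          ∑ x, ∑ y, ∑ z', P x * (β x y * Q y) * β y z' * (2 * ell z') := by
        rw [Finset.sum_comm]
        refine Finset.sum_congr rfl fun x _ => ?_
        rw [Finset.sum_comm]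
        refine Finset.sum_congr rfl fun y _ => ?_
        rw [Finset.sum_comm]
        refine Finset.sum_congr rfl fun z' _ => ?_
        have e : ∀ z, β z x * P x * (β x y * Q y) * β y z' * (2 * ell z') =
            β z x * (P x * (β x y * Q y) * β y z' * (2 * ell z')) := fun z => by ring
        rw [Finset.sum_congr rfl fun z _ => e z, ← Finset.sum_mul, hc x, one_mul]
      rw [e2]
      have e3 : ∀ x, ∑ y, ∑ z', P x * (β x y * Q y) * β y z' * (2 * ell z') =
          ∑ z', ∑ y, P x * (β x y * Q y) * β y z' * (2 * ell z') := fun x => Finset.sum_comm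
      rw [Finset.sum_congr rfl fun x _ => e3 x, Finset.sum_comm]
      refine Finset.sum_congr rfl fun z' _ => ?_
      rw [Finset.sum_comm, Finset.sum_mul]
      refine Finset.sum_congr rfl fun y _ => ?_
      rw [Finset.mul_sum, Finset.sum_mul]
      refine Finset.sum_congr rfl fun x _ => ?_
      rw [hs z' y, hs y x]
      ring
    rw [e0, Finset.mul_sum, Finset.mul_sum]
    refine Finset.sum_le_sum fun z' _ => mul_le_mul_of_nonneg_right ?_
      (mul_nonneg (by norm_num) (hell z'))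
    calc ∑ y, β z' y * Q y * (∑ x, β y x * P x) ≤ ∑ y, β z' y * Q y * (2 / M) :=
          Finset.sum_le_sum fun y _ => mul_le_mul_of_nonneg_left (hP2 y)
            (mul_nonneg (hβ z' y) (hQ y))
      _ = (∑ y, β z' y * Q y) * (2 / M) := by rw [Finset.sum_mul]
      _ ≤ 2 / M * (2 / M) := mul_le_mul_of_nonneg_right (hQ2 z') hM2
  rw [p1]
  have hM4 : (0 : ℝ) ≤ 4 * M ^ 2 := by positivity
  have q2 := mul_le_mul_of_nonneg_left p2 hM4
  have q3 := mul_le_mul_of_nonneg_left p3 hM4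
  have q4 := mul_le_mul_of_nonneg_left p4 hM4
  have r2 : 4 * M ^ 2 * (2 / M * ∑ y, Q y * ∑ z, β y z * |h y - H z|) =
      8 * M * ∑ y, Q y * ∑ z, β y z * |h y - H z| := by
    field_simp; ring
  have r3 : 4 * M ^ 2 * (2 / M * (2 / M) * (2 * ∑ z, ell z)) = 32 * ∑ z, ell z := by
    field_simp; ring
  rw [r2] at q2
  rw [r3] at q3 q4
  linarith

end gen

section grp

variable {G : Type u} [Group G] [Fintype G] [DecidableEq G]

theorem UM_nonneg (S : Finset G) (x y : G) : 0 ≤ UM S x y :=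
  div_nonneg (ind_nonneg _) (Nat.cast_nonneg _)

theorem UM_symm {S : Finset G} (hS : Sy S) (x y : G) : UM S x y = UM S y x := by
  unfold UM
  congr 1
  by_cases h : x⁻¹ * y ∈ S
  · have h' : y⁻¹ * x ∈ S := by
      have := hS.inv _ h
      simpa using this
    rw [ind_of h, ind_of h']
  · have h' : ¬ y⁻¹ * x ∈ S := fun h' => h (by
      have := hS.inv _ h'
      simpa using this)
    rw [ind_not h, ind_not h']

theorem UM_row {S : Finset G} (hS : Sy S) (x : G) : ∑ y, UM S x y = 1 := by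
  unfold UM
  rw [← Finset.sum_div]
  have h1 : ∑ y, ind (x⁻¹ * y ∈ S) = ∑ y, ind (y ∈ S) :=
    Fintype.sum_equiv (Equiv.mulLeft x⁻¹) _ _ (fun y => rfl)
  have h2 : ∑ y, ind (y ∈ S) = (S.card : ℝ) := by
    rw [← Finset.sum_subset (Finset.subset_univ S) (fun y _ hy => ind_not hy),
      Finset.sum_congr rfl (fun y hy => ind_of hy)]
    simp
  rw [h1, h2]
  exact div_self (by exact_mod_cast (Finset.card_pos.2 hS.ne).ne')

theorem UM_mem {S : Finset G} {x y : G} (h : UM S x y ≠ 0) : x⁻¹ * y ∈ S := by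
  by_contra h'
  exact h (by unfold UM; rw [ind_not h', zero_div])

theorem word_append {L : Finset G} {i j : ℕ} {g h : G} (hg : word L i g) (hh : word L j h) :
    word L (i + j) (g * h) := by
  obtain ⟨l, h1, h2, h3⟩ := hg
  obtain ⟨l', h1', h2', h3'⟩ := hh
  refine ⟨l ++ l', by simp [h1, h1'], ?_, by simp [h3, h3']⟩
  intro s hs
  rcases List.mem_append.1 hs with h | h
  · exact h2 s h
  · exact h2' s h

theorem word_one {L : Finset G} {g : G} (hg : g ∈ L) : word L 1 g :=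
  ⟨[g], rfl, by simpa using hg, by simp⟩

theorem oddW_three {S : Finset G} {z x y w : G} (h1 : UM S z x ≠ 0) (h2 : UM S x y ≠ 0)
    (h3 : UM S y w ≠ 0) : oddW S 7 (z⁻¹ * w) := by
  refine ⟨3, ⟨1, rfl⟩, by norm_num, ?_⟩
  have e : z⁻¹ * w = (z⁻¹ * x) * (x⁻¹ * y) * (y⁻¹ * w) := by group
  rw [e]
  exact word_append (word_append (word_one (UM_mem h1)) (word_one (UM_mem h2)))
    (word_one (UM_mem h3))

theorem X_big (c : Ctx G) : (10 : ℝ) ^ 6 ≤ c.X := by
  have h0 : 1 ≤ c.T * c.k * (c.r0 + 1) := by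
    have := c.hT1
    have := c.hk1
    exact Nat.one_le_iff_ne_zero.2 (by positivity)
  have h2' : 10 ^ 6 ≤ 10 ^ 6 * c.T * c.k * (c.r0 + 1) := by
    calc 10 ^ 6 = 10 ^ 6 * 1 := by norm_num
      _ ≤ 10 ^ 6 * (c.T * c.k * (c.r0 + 1)) := Nat.mul_le_mul_left _ h0
      _ = 10 ^ 6 * c.T * c.k * (c.r0 + 1) := by ring
  have h2 : (10 : ℝ) ^ 6 ≤ ((10 ^ 6 * c.T * c.k * (c.r0 + 1) : ℕ) : ℝ) := by
    exact_mod_cast h2'
  have h1 : (1 : ℝ) ≤ ((10 ^ 6 * c.T * c.k * (c.r0 + 1) : ℕ) : ℝ) := le_trans (by norm_num) h2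
  have h3 : ((10 ^ 6 * c.T * c.k * (c.r0 + 1) : ℕ) : ℝ) ≤
      ((10 ^ 6 * c.T * c.k * (c.r0 + 1) : ℕ) : ℝ) ^ 200 := le_self_pow₀ h1 (by norm_num)
  exact h2.trans (h3.trans c.hX)

variable {c : Ctx G} {N : ℕ} (g : Gad c N)

theorem aB_nonneg {m : ℕ} (lv : G → ZMod m) (x y : G) : 0 ≤ g.aB lv x y := by
  unfold Gad.aB
  exact mul_nonneg (div_nonneg (Nat.cast_nonneg _)
    (mul_nonneg (by norm_num) (by unfold Ctx.b; exact Nat.cast_nonneg _))) (ind_nonneg _)

theorem aC_nonneg {m : ℕ} (lv : G → ZMod m) (x y : G) : 0 ≤ g.aC lv x y := by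
  have hX : (0 : ℝ) ≤ c.X := le_trans (by norm_num) (X_big c)
  unfold Gad.aC
  exact mul_nonneg (div_nonneg (div_nonneg zero_le_one (pow_nonneg hX _)) (Nat.cast_nonneg _))
    (ind_nonneg _)

theorem bc_nonneg {m : ℕ} (lv : G → ZMod m) (u v : G → ℝ) (i : ZMod m) : 0 ≤ g.bc lv u v i := by
  unfold Gad.bc
  exact Finset.sum_nonneg fun x _ => Finset.sum_nonneg fun y _ =>
    mul_nonneg (mul_nonneg (ind_nonneg _) (add_nonneg (aB_nonneg g lv x y) (aC_nonneg g lv x y)))
      (abs_nonneg _)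

theorem b2_nonneg {m : ℕ} (lv : G → ZMod m) (u v : G → ℝ) (i : ZMod m) : 0 ≤ g.b2 lv u v i := by
  unfold Gad.b2
  exact Finset.sum_nonneg fun x _ => Finset.sum_nonneg fun y _ =>
    mul_nonneg (mul_nonneg (ind_nonneg _) (aB_nonneg g lv x y)) (abs_nonneg _)

/-- Comparison of `UM` with `aB`. -/
theorem UM_le_aB {m : ℕ} (hm : (0 : ℝ) < m) (lv : G → ZMod m) (i : ZMod m) (p q : G → Prop)
    (hp : ∀ x, p x → g.RR x ∧ lv x = i) (hq : ∀ y, q y → g.CC y ∧ lv y = i + 2)
    (hpq : ∀ x y, p x → q y → ¬ (g.W x ∧ g.W y)) (x y : G) :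
    ind (p x) * ind (q y) * UM c.B x y ≤
      2 / m * (ind (lv x = i ∧ lv y = i + 2) * g.aB lv x y) := by
  have hnn : 0 ≤ 2 / (m : ℝ) * (ind (lv x = i ∧ lv y = i + 2) * g.aB lv x y) :=
    mul_nonneg (by positivity) (mul_nonneg (ind_nonneg _) (aB_nonneg g lv x y))
  by_cases h1 : p x
  · by_cases h2 : q y
    · by_cases h3 : x⁻¹ * y ∈ c.B
      · obtain ⟨hx, hx'⟩ := hp x h1
        obtain ⟨hy, hy'⟩ := hq y h2
        have hcond : g.RR x ∧ g.CC y ∧ x⁻¹ * y ∈ c.B ∧ ¬ (g.W x ∧ g.W y) ∧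
            (lv y = lv x + 1 ∨ lv y = lv x + 2) :=
          ⟨hx, hy, h3, hpq x y h1 h2, Or.inr (by rw [hx', hy'])⟩
        unfold Gad.aB UM
        rw [ind_of h1, ind_of h2, ind_of h3, ind_of ⟨hx', hy'⟩, ind_of hcond]
        have hb : (0 : ℝ) < c.b := by
          unfold Ctx.b
          exact_mod_cast Finset.card_pos.2 c.hB.ne
        have e : (c.b : ℝ) = (c.B.card : ℝ) := rfl
        rw [← e]
        apply le_of_eq
        field_simp
      · have : UM c.B x y = 0 := by unfold UM; rw [ind_not h3, zero_div]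
        rw [this, mul_zero]; exact hnn
    · rw [ind_not h2, mul_zero, zero_mul]; exact hnn
  · rw [ind_not h1, zero_mul, zero_mul]; exact hnn

end grp

end H92

end Pool.Agent.Lib.MP_688fd0_co.TF
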